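import Mathlib

set_option autoImplicit false

namespace Q117.S3

/-- `s_3(G)`: the number of 3-element vertex sets inducing a connected subgraph. -/
noncomputable def s3 {V : Type} (G : SimpleGraph V) : ℕ :=
  {S : Finset V | S.card = 3 ∧ (G.induce (S : Set V)).Connected}.ncard

/-- `m(n,e)`: the minimum of `s_3(G)` over all graphs `G` with `n` vertices and `e` edges. -/
noncomputable def m (n e : ℕ) : ℕ :=
  sInf {k : ℕ | ∃ (V : Type) (_ : Fintype V) (G : SimpleGraph V),
    Fintype.card V = n ∧ G.edgeSet.ncard = e ∧ k = s3 G}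

end Q117.S3
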