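import Mathlib
import Pool.Agent.Q117.S3.Defs

set_option autoImplicit false

namespace Q117.S3

open Finset SimpleGraph

variable {V : Type} [Fintype V] [DecidableEq V] (G : SimpleGraph V) [DecidableRel G.Adj]

/-- at least two of the three pairs are edges -/
def C3 (a b c : V) : Prop :=
  (G.Adj a b ∧ G.Adj a c) ∨ (G.Adj a b ∧ G.Adj b c) ∨ (G.Adj a c ∧ G.Adj b c)

instance (a b c : V) : Decidable (C3 G a b c) := by unfold C3; infer_instance

lemma conn_of_center {S : Finset V} {v : V} (hv : v ∈ S) (h : ∀ w ∈ S, w ≠ v → G.Adj v w) :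
    (G.induce (S : Set V)).Connected := by
  have hne : Nonempty (S : Set V) := ⟨⟨v, hv⟩⟩
  have hbase : ∀ w : (S : Set V), (G.induce (S : Set V)).Reachable ⟨v, hv⟩ w := by
    rintro ⟨w, hw⟩
    by_cases hwv : w = v
    · subst hwv; exact Reachable.refl _
    · exact Adj.reachable (show (G.induce (S : Set V)).Adj ⟨v, hv⟩ ⟨w, hw⟩ from h w hw hwv)
  exact ⟨fun x y => (hbase x).symm.trans (hbase y)⟩

lemma connected_iff {a b c : V} (hab : a ≠ b) (hac : a ≠ c) (hbc : b ≠ c) :
    (G.induce ((({a, b, c} : Finset V)) : Set V)).Connected ↔ C3 G a b c := by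
  have ha : a ∈ ({a, b, c} : Finset V) := by simp
  have hb : b ∈ ({a, b, c} : Finset V) := by simp
  have hc : c ∈ ({a, b, c} : Finset V) := by simp
  constructor
  · intro h
    have hnt : Nontrivial ((({a, b, c} : Finset V)) : Set V) :=
      ⟨⟨⟨a, ha⟩, ⟨b, hb⟩, fun h => hab (congrArg Subtype.val h)⟩⟩
    obtain ⟨⟨x, hx⟩, h1⟩ := h.preconnected.exists_adj_of_nontrivial ⟨a, ha⟩
    obtain ⟨⟨y, hy⟩, h2⟩ := h.preconnected.exists_adj_of_nontrivial ⟨b, hb⟩
    obtain ⟨⟨z, hz⟩, h3⟩ := h.preconnected.exists_adj_of_nontrivial ⟨c, hc⟩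
    have h1' : G.Adj a x := h1
    have h2' : G.Adj b y := h2
    have h3' : G.Adj c z := h3
    simp only [coe_insert, coe_singleton, Set.mem_insert_iff, Set.mem_singleton_iff] at hx hy hz
    have n1 : x ≠ a := h1'.ne'
    have n2 : y ≠ b := h2'.ne'
    have n3 : z ≠ c := h3'.ne'
    unfold C3
    rcases hx with rfl | rfl | rfl
    · exact absurd rfl n1
    · rcases hz with rfl | rfl | rfl
      · exact Or.inl ⟨h1', h3'.symm⟩
      · exact Or.inr (Or.inl ⟨h1', h3'.symm⟩)
      · exact absurd rfl n3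
    · rcases hy with rfl | rfl | rfl
      · exact Or.inl ⟨h2'.symm, h1'⟩
      · exact absurd rfl n2
      · exact Or.inr (Or.inr ⟨h1', h2'⟩)
  · intro h
    rcases h with ⟨h1, h2⟩ | ⟨h1, h2⟩ | ⟨h1, h2⟩
    · apply conn_of_center G ha
      intro w hw hwa
      simp only [mem_insert, mem_singleton] at hw
      rcases hw with rfl | rfl | rfl
      · exact absurd rfl hwa
      · exact h1
      · exact h2
    · apply conn_of_center G hb
      intro w hw hwa
      simp only [mem_insert, mem_singleton] at hw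
      rcases hw with rfl | rfl | rfl
      · exact h1.symm
      · exact absurd rfl hwa
      · exact h2
    · apply conn_of_center G hc
      intro w hw hwa
      simp only [mem_insert, mem_singleton] at hw
      rcases hw with rfl | rfl | rfl
      · exact h1.symm
      · exact h2.symm
      · exact absurd rfl hwa

/-- ordered distinct triples -/
def dist3 : Finset (V × V × V) :=
  univ.filter (fun p => p.1 ≠ p.2.1 ∧ p.1 ≠ p.2.2 ∧ p.2.1 ≠ p.2.2)

lemma fiber_card (S : Finset V) (hS : S.card = 3) :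
    ((dist3 (V := V)).filter (fun p => ({p.1, p.2.1, p.2.2} : Finset V) = S)).card = 6 := by
  obtain ⟨x, y, z, hxy, hxz, hyz, rfl⟩ := Finset.card_eq_three.1 hS
  have h : (dist3 (V := V)).filter (fun p => ({p.1, p.2.1, p.2.2} : Finset V) = {x, y, z}) =
      {(x, y, z), (x, z, y), (y, x, z), (y, z, x), (z, x, y), (z, y, x)} := by
    ext ⟨a, b, c⟩
    simp only [dist3, mem_filter, mem_univ, true_and, mem_insert, mem_singleton, Prod.mk.injEq]
    constructor
    · rintro ⟨⟨h1, h2, h3⟩, heq⟩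
      have ha : a ∈ ({x, y, z} : Finset V) := by rw [← heq]; simp
      have hb : b ∈ ({x, y, z} : Finset V) := by rw [← heq]; simp
      have hc : c ∈ ({x, y, z} : Finset V) := by rw [← heq]; simp
      simp only [mem_insert, mem_singleton] at ha hb hc
      rcases ha with rfl | rfl | rfl <;> rcases hb with rfl | rfl | rfl <;>
        rcases hc with rfl | rfl | rfl <;> simp_all
    · rintro (⟨rfl, rfl, rfl⟩ | ⟨rfl, rfl, rfl⟩ | ⟨rfl, rfl, rfl⟩ | ⟨rfl, rfl, rfl⟩ |
        ⟨rfl, rfl, rfl⟩ | ⟨rfl, rfl, rfl⟩)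
      · exact ⟨⟨hxy, hxz, hyz⟩, rfl⟩
      · exact ⟨⟨hxz, hxy, hyz.symm⟩, by ext w; simp; tauto⟩
      · exact ⟨⟨hxy.symm, hyz, hxz⟩, by ext w; simp; tauto⟩
      · exact ⟨⟨hyz, hxy.symm, hxz.symm⟩, by ext w; simp; tauto⟩
      · exact ⟨⟨hxz.symm, hyz.symm, hxy⟩, by ext w; simp; tauto⟩
      · exact ⟨⟨hyz.symm, hxz.symm, hxy.symm⟩, by ext w; simp; tauto⟩
  rw [h]
  have hyx := hxy.symm
  have hzx := hxz.symm
  have hzy := hyz.symm
  rw [Finset.card_insert_of_notMem, Finset.card_insert_of_notMem, Finset.card_insert_of_notMem,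
    Finset.card_insert_of_notMem, Finset.card_insert_of_notMem, Finset.card_singleton]
  all_goals simp [hxy, hxz, hyz, hyx, hzx, hzy]

lemma s3_eq : 6 * s3 G = ((dist3 (V := V)).filter (fun p => C3 G p.1 p.2.1 p.2.2)).card := by
  classical
  set T : Finset (Finset V) := univ.filter
    (fun S => S.card = 3 ∧ (G.induce (S : Set V)).Connected) with hT
  have h1 : s3 G = T.card := by
    unfold s3
    rw [← Set.ncard_coe_finset, hT]
    congr 1
    ext S
    simp
  have hmap : ∀ p ∈ (dist3 (V := V)).filter (fun p => C3 G p.1 p.2.1 p.2.2),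
      ({p.1, p.2.1, p.2.2} : Finset V) ∈ T := by
    rintro ⟨a, b, c⟩ hp
    rw [mem_filter, dist3, mem_filter] at hp
    obtain ⟨⟨_, h1, h2, h3⟩, h4⟩ := hp
    rw [hT, mem_filter]
    refine ⟨mem_univ _, Finset.card_eq_three.2 ⟨a, b, c, h1, h2, h3, rfl⟩, ?_⟩
    exact (connected_iff G h1 h2 h3).2 h4
  rw [h1, Finset.card_eq_sum_card_fiberwise hmap]
  have h2 : ∀ S ∈ T, (((dist3 (V := V)).filter (fun p => C3 G p.1 p.2.1 p.2.2)).filter
      (fun p => ({p.1, p.2.1, p.2.2} : Finset V) = S)).card = 6 := by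
    intro S hS
    rw [hT, mem_filter] at hS
    rw [← fiber_card S hS.2.1]
    congr 1
    ext ⟨a, b, c⟩
    simp only [mem_filter]
    constructor
    · rintro ⟨⟨h1, _⟩, h3⟩
      exact ⟨h1, h3⟩
    · rintro ⟨h1, h3⟩
      refine ⟨⟨h1, ?_⟩, h3⟩
      have h4 := h1
      rw [dist3, mem_filter] at h4
      obtain ⟨_, g1, g2, g3⟩ := h4
      rw [← h3] at hS
      exact (connected_iff G g1 g2 g3).1 hS.2.2
  rw [Finset.sum_congr rfl h2, Finset.sum_const, smul_eq_mul, mul_comm]

/-- number of ordered induced cherries -/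
def Q : ℕ := (univ.filter (fun p : V × V × V => G.Adj p.1 p.2.1 ∧ G.Adj p.1 p.2.2 ∧
    p.2.1 ≠ p.2.2 ∧ ¬ G.Adj p.2.1 p.2.2)).card

/-- indicator as an integer -/
def A (a b : V) : ℤ := if G.Adj a b then 1 else 0

lemma A_symm (a b : V) : A G a b = A G b a := by
  unfold A; simp only [G.adj_comm]

lemma A_self (a : V) : A G a a = 0 := by unfold A; simp

lemma deg_eq (v : V) : (G.degree v : ℤ) = ∑ w, A G v w := by
  unfold A
  rw [Finset.sum_boole, ← SimpleGraph.card_neighborFinset_eq_degree,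
    SimpleGraph.neighborFinset_eq_filter]

lemma sum_cherry : ∑ v, ∑ a, ∑ b, (if a ≠ b then A G v a * A G v b else 0) =
    ∑ v, (G.degree v : ℤ) * ((G.degree v : ℤ) - 1) := by
  apply Finset.sum_congr rfl
  intro v _
  have h1 : ∀ a b, (if a ≠ b then A G v a * A G v b else 0) =
      A G v a * A G v b - (if a = b then A G v a else 0) := by
    intro a b
    by_cases h : a = b
    · subst h
      simp only [ne_eq, not_true_eq_false, if_false, if_true]
      unfold A
      split_ifs <;> simp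
    · simp [h]
  simp only [h1]
  simp only [Finset.sum_sub_distrib, ← Finset.mul_sum, ← Finset.sum_mul]
  rw [← deg_eq]
  simp only [Finset.sum_ite_eq, mem_univ, if_true]
  rw [← deg_eq]
  ring

lemma Q_eq : (Q G : ℤ) = ∑ v, ∑ a, ∑ b, (if a ≠ b then A G v a * A G v b * (1 - A G a b) else 0) := by
  unfold Q
  rw [Finset.card_filter]
  push_cast
  rw [Fintype.sum_prod_type]
  apply Finset.sum_congr rfl
  intro v _
  rw [Fintype.sum_prod_type]
  apply Finset.sum_congr rfl
  intro a _
  apply Finset.sum_congr rfl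
  intro b _
  unfold A
  by_cases h1 : G.Adj v a <;> by_cases h2 : G.Adj v b <;> by_cases h3 : a = b <;>
    by_cases h4 : G.Adj a b <;> simp [h1, h2, h3, h4]

/-- `6 s₃ = Σ d(d-1) + 2 Q`. -/
theorem s3_formula : 6 * (s3 G : ℤ) =
    ∑ v, (G.degree v : ℤ) * ((G.degree v : ℤ) - 1) + 2 * (Q G : ℤ) := by
  have h0 : 6 * (s3 G : ℤ) = ∑ x : V, ∑ y : V, ∑ z : V,
      (if x ≠ y ∧ x ≠ z ∧ y ≠ z then (A G x y * A G x z + A G x y * A G y z + A G x z * A G y z -
        2 * (A G x y * A G x z * A G y z)) else 0) := by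
    have := s3_eq G
    have h2 : 6 * (s3 G : ℤ) =
        (((dist3 (V := V)).filter (fun p => C3 G p.1 p.2.1 p.2.2)).card : ℤ) := by
      rw [← this]; push_cast; ring
    rw [h2, dist3, Finset.filter_filter, Finset.card_filter]
    push_cast
    rw [Fintype.sum_prod_type]
    apply Finset.sum_congr rfl
    intro x _
    rw [Fintype.sum_prod_type]
    apply Finset.sum_congr rfl
    intro y _
    apply Finset.sum_congr rfl
    intro z _
    unfold A C3
    by_cases h : x ≠ y ∧ x ≠ z ∧ y ≠ z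
    · by_cases h1 : G.Adj x y <;> by_cases h2 : G.Adj x z <;> by_cases h3 : G.Adj y z <;>
        simp [h, h1, h2, h3]
    · rw [if_neg h, if_neg (fun h' => h h'.1)]
  rw [h0]
  have h1 : ∀ x y z : V,
      (if x ≠ y ∧ x ≠ z ∧ y ≠ z then (A G x y * A G x z + A G x y * A G y z + A G x z * A G y z -
        2 * (A G x y * A G x z * A G y z)) else 0) =
      (if y ≠ z then A G x y * A G x z else 0) + (if x ≠ z then A G y x * A G y z else 0) +
      (if x ≠ y then A G z x * A G z y else 0) -
      2 * (if y ≠ z then A G x y * A G x z * A G y z else 0) := by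
    intro x y z
    rw [A_symm G y x, A_symm G z x, A_symm G z y]
    by_cases hxy : x = y
    · subst hxy; simp [A_self]
    by_cases hxz : x = z
    · subst hxz
      have := A_symm G y x
      simp [A_self, hxy, this]
    by_cases hyz : y = z
    · subst hyz
      simp [A_self, hxy]
    simp [hxy, hxz, hyz]
  simp only [h1, Finset.sum_sub_distrib, Finset.sum_add_distrib, ← Finset.mul_sum]
  have e1 := sum_cherry G
  have e2 := Q_eq G
  have e3 : ∑ x : V, ∑ y : V, ∑ z : V, (if x ≠ z then A G y x * A G y z else 0) =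
      ∑ v, ∑ a, ∑ b, (if a ≠ b then A G v a * A G v b else 0) := by
    rw [Finset.sum_comm]
  have e4 : ∑ x : V, ∑ y : V, ∑ z : V, (if x ≠ y then A G z x * A G z y else 0) =
      ∑ v, ∑ a, ∑ b, (if a ≠ b then A G v a * A G v b else 0) := by
    have h5 : ∀ x : V, ∑ y : V, ∑ z : V, (if x ≠ y then A G z x * A G z y else 0) =
        ∑ z : V, ∑ y : V, (if x ≠ y then A G z x * A G z y else 0) := fun x => Finset.sum_comm
    simp only [h5]
    rw [Finset.sum_comm]
  rw [e3, e4, e2, e1]
  have e5 : ∑ v, ∑ a, ∑ b, (if a ≠ b then A G v a * A G v b * (1 - A G a b) else 0) =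
      ∑ v, ∑ a, ∑ b, (if a ≠ b then A G v a * A G v b else 0) -
      ∑ v, ∑ a, ∑ b, (if a ≠ b then A G v a * A G v b * A G a b else 0) := by
    simp only [← Finset.sum_sub_distrib]
    apply Finset.sum_congr rfl
    intro v _
    apply Finset.sum_congr rfl
    intro a _
    apply Finset.sum_congr rfl
    intro b _
    by_cases h : a = b
    · simp [h]
    · simp only [ne_eq, h, not_false_eq_true, if_true]
      ring
  rw [e5, e1]
  ring

end Q117.S3
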