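import Mathlib
import Pool.Agent.Q117.S3.Count

set_option autoImplicit false

namespace Q117.S3

open Finset SimpleGraph

variable {V : Type} [Fintype V] [DecidableEq V] (G : SimpleGraph V) [DecidableRel G.Adj]

/-- `(d-p)(d-p-1)` -/
def phi (p : ℤ) (d : ℤ) : ℤ := (d - p) * (d - p - 1)

lemma phi_nonneg (p d : ℤ) : 0 ≤ phi p d := by
  unfold phi
  rcases le_or_gt d p with h | h
  · exact mul_nonneg_of_nonpos_of_nonpos (by linarith) (by linarith)
  · exact mul_nonneg (by linarith) (by linarith)

lemma phi_add (p d : ℤ) : p ≤ phi p d + d := by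
  unfold phi
  nlinarith [sq_nonneg (d - p)]

/-- the injection from the neighbours of `x` to induced cherries -/
def fm (x y z w : V) : V × V × V :=
  if w = y then (y, x, z) else if ¬ G.Adj w y then (x, w, y) else
    if ¬ G.Adj w z then (y, w, z) else (w, x, z)

/-- its left inverse -/
def gm (x y : V) (c : V × V × V) : V :=
  if c.1 = x then c.2.1 else if c.1 = y then (if c.2.1 = x then y else c.2.1) else c.1

lemma Q_ge (x y z : V) (hxy : G.Adj x y) (hyz : G.Adj y z) (hxz : x ≠ z) (hn : ¬ G.Adj x z) :
    G.degree x + 1 ≤ Q G := by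
  have hyx : y ≠ x := hxy.ne'
  have hinj : Set.InjOn (fm G x y z) (G.neighborFinset x : Set V) := by
    intro w hw w' hw' h
    have key : ∀ w ∈ (G.neighborFinset x : Set V), gm x y (fm G x y z w) = w := by
      intro w hw
      rw [mem_coe, mem_neighborFinset] at hw
      have hwx : w ≠ x := hw.ne'
      unfold fm
      by_cases h1 : w = y
      · rw [if_pos h1]
        unfold gm
        simp [hyx, h1]
      · rw [if_neg h1]
        by_cases h2 : G.Adj w y
        · rw [if_neg (not_not.2 h2)]
          by_cases h3 : G.Adj w z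
          · rw [if_neg (not_not.2 h3)]
            unfold gm
            simp [hwx, h1]
          · rw [if_pos h3]
            unfold gm
            simp [hyx, hwx]
        · rw [if_pos h2]
          unfold gm
          simp
    rw [← key w hw, ← key w' hw', h]
  have hnot : (y, z, x) ∉ (G.neighborFinset x).image (fm G x y z) := by
    intro h
    rw [mem_image] at h
    obtain ⟨w, hw, heq⟩ := h
    unfold fm at heq
    by_cases h1 : w = y
    · rw [if_pos h1] at heq
      simp only [Prod.mk.injEq] at heq
      exact hxz heq.2.1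
    · rw [if_neg h1] at heq
      by_cases h2 : G.Adj w y
      · rw [if_neg (not_not.2 h2)] at heq
        by_cases h3 : G.Adj w z
        · rw [if_neg (not_not.2 h3)] at heq
          simp only [Prod.mk.injEq] at heq
          exact h1 heq.1
        · rw [if_pos h3] at heq
          simp only [Prod.mk.injEq] at heq
          exact hxz heq.2.2.symm
      · rw [if_pos h2] at heq
        simp only [Prod.mk.injEq] at heq
        exact hyx heq.1.symm
  have hsub : insert (y, z, x) ((G.neighborFinset x).image (fm G x y z)) ⊆
      univ.filter (fun p : V × V × V => G.Adj p.1 p.2.1 ∧ G.Adj p.1 p.2.2 ∧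
        p.2.1 ≠ p.2.2 ∧ ¬ G.Adj p.2.1 p.2.2) := by
    intro p hp
    rw [mem_filter]
    refine ⟨mem_univ _, ?_⟩
    rw [mem_insert, mem_image] at hp
    rcases hp with rfl | ⟨w, hw, rfl⟩
    · exact ⟨hyz, hxy.symm, hxz.symm, fun h => hn h.symm⟩
    · rw [mem_neighborFinset] at hw
      unfold fm
      by_cases h1 : w = y
      · rw [if_pos h1]
        exact ⟨hxy.symm, hyz, hxz, hn⟩
      · rw [if_neg h1]
        by_cases h2 : G.Adj w y
        · rw [if_neg (not_not.2 h2)]
          by_cases h3 : G.Adj w z
          · rw [if_neg (not_not.2 h3)]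
            exact ⟨hw.symm, h3, hxz, hn⟩
          · rw [if_pos h3]
            refine ⟨h2.symm, hyz, ?_, h3⟩
            intro hwz
            have hwz' : w = z := hwz
            rw [hwz'] at hw
            exact hn hw
        · rw [if_pos h2]
          exact ⟨hw, hxy, h1, h2⟩
  have h := Finset.card_le_card hsub
  rw [Finset.card_insert_of_notMem hnot, Finset.card_image_of_injOn hinj,
    card_neighborFinset_eq_degree] at h
  exact h

lemma nonclique (p : ℤ) (x y z : V) (hxy : G.Adj x y) (hyz : G.Adj y z) (hxz : x ≠ z)
    (hn : ¬ G.Adj x z) : 2 * p + 1 ≤ ∑ v, phi p (G.degree v) + 2 * (Q G : ℤ) := by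
  have h1 := Q_ge G x y z hxy hyz hxz hn
  have h2 := Q_ge G z y x hyz.symm hxy.symm hxz.symm (fun h => hn h.symm)
  have h3 : phi p (G.degree x) + phi p (G.degree z) ≤ ∑ v, phi p (G.degree v) := by
    have : ∑ v ∈ ({x, z} : Finset V), phi p (G.degree v) ≤ ∑ v, phi p (G.degree v) :=
      Finset.sum_le_sum_of_subset_of_nonneg (Finset.subset_univ _)
        (fun i _ _ => phi_nonneg p _)
    rw [Finset.sum_pair hxz] at this
    exact this
  have h4 := phi_add p (G.degree x)
  have h5 := phi_add p (G.degree z)
  have h1' : (G.degree x : ℤ) + 1 ≤ (Q G : ℤ) := by exact_mod_cast h1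
  have h2' : (G.degree z : ℤ) + 1 ≤ (Q G : ℤ) := by exact_mod_cast h2
  linarith

/-- closed neighbourhood -/
def cl (v : V) : Finset V := insert v (G.neighborFinset v)

lemma mem_cl {v w : V} : w ∈ cl G v ↔ w = v ∨ G.Adj v w := by
  unfold cl
  rw [mem_insert, mem_neighborFinset]

lemma card_cl (v : V) : (cl G v).card = G.degree v + 1 := by
  unfold cl
  rw [Finset.card_insert_of_notMem, card_neighborFinset_eq_degree]
  simp

variable {G}

lemma cl_eq (htr : ∀ x y z, G.Adj x y → G.Adj y z → x ≠ z → G.Adj x z) {v w : V}
    (h : w ∈ cl G v) : cl G w = cl G v := by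
  rw [mem_cl] at h
  rcases h with rfl | h
  · rfl
  · ext u
    rw [mem_cl, mem_cl]
    constructor
    · rintro (rfl | h1)
      · exact Or.inr h
      · by_cases huv : u = v
        · exact Or.inl huv
        · exact Or.inr (htr v w u h h1 (Ne.symm huv))
    · rintro (rfl | h1)
      · exact Or.inr h.symm
      · by_cases huw : u = w
        · exact Or.inl huw
        · exact Or.inr (htr w v u h.symm h1 (Ne.symm huw))

lemma deg_eq_of_mem_cl (htr : ∀ x y z, G.Adj x y → G.Adj y z → x ≠ z → G.Adj x z) {v w : V}
    (h : w ∈ cl G v) : G.degree w = G.degree v := by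
  have h1 := card_cl G w
  rw [cl_eq htr h, card_cl] at h1
  omega

lemma div_card (htr : ∀ x y z, G.Adj x y → G.Adj y z → x ≠ z → G.Adj x z) (d : ℕ) :
    (d + 1) ∣ (univ.filter (fun v => G.degree v = d)).card := by
  set X := univ.filter (fun v => G.degree v = d) with hX
  rw [Finset.card_eq_sum_card_image (cl G) X]
  apply Finset.dvd_sum
  intro C hC
  rw [mem_image] at hC
  obtain ⟨v, hv, rfl⟩ := hC
  have hv' : G.degree v = d := by rw [hX, mem_filter] at hv; exact hv.2
  have : X.filter (fun w => cl G w = cl G v) = cl G v := by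
    ext w
    rw [mem_filter]
    constructor
    · rintro ⟨_, h⟩
      rw [← h, mem_cl]
      exact Or.inl rfl
    · intro h
      refine ⟨?_, cl_eq htr h⟩
      rw [hX, mem_filter]
      exact ⟨mem_univ _, (deg_eq_of_mem_cl htr h).trans hv'⟩
  rw [this, card_cl, hv']

lemma phi_zero {p d : ℤ} (h : phi p d = 0) : d = p ∨ d = p + 1 := by
  unfold phi at h
  rcases mul_eq_zero.1 h with h | h
  · left; linarith
  · right; linarith

/-- The lower bound for the exceptional number of edges. -/
theorem lower (p a : ℕ) (hp : 2 ≤ p) (hn : Fintype.card V = (p + 2) * a + p + 1)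
    (hdeg : (∑ v, (G.degree v : ℤ)) = a * (p + 2) * (p + 1) + (p + 1) * p + 2) :
    2 * (p : ℤ) + 1 ≤ ∑ v, phi p (G.degree v) + 2 * (Q G : ℤ) := by
  by_cases hP3 : ∃ x y z, G.Adj x y ∧ G.Adj y z ∧ x ≠ z ∧ ¬ G.Adj x z
  · obtain ⟨x, y, z, h1, h2, h3, h4⟩ := hP3
    exact nonclique G p x y z h1 h2 h3 h4
  · push Not at hP3
    have htr : ∀ x y z, G.Adj x y → G.Adj y z → x ≠ z → G.Adj x z := hP3
    have hQ0 : (0 : ℤ) ≤ (Q G : ℤ) := by positivity
    by_contra hcon
    push Not at hcon
    have hle : ∑ v, phi p (G.degree v) ≤ 2 * p := by linarith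
    set X := univ.filter (fun v => G.degree v = p + 1) with hX
    have hsum : ∑ v, ((G.degree v : ℤ) - p) = a * (p + 2) + 2 := by
      rw [Finset.sum_sub_distrib, hdeg, Finset.sum_const, Finset.card_univ, hn, nsmul_eq_mul]
      push_cast
      ring
    have hp' : (2 : ℤ) ≤ p := by exact_mod_cast hp
    by_cases hall : ∀ v, phi p (G.degree v) = 0
    · have h1 : ∀ v, ((G.degree v : ℤ) - p) = if G.degree v = p + 1 then 1 else 0 := by
        intro v
        rcases phi_zero (hall v) with h | h
        · rw [h, if_neg (by intro h'; rw [h'] at h; push_cast at h; linarith)]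
          ring
        · rw [h, if_pos (by exact_mod_cast h)]
          ring
      rw [Finset.sum_congr rfl (fun v _ => h1 v), Finset.sum_boole] at hsum
      obtain ⟨c, hc⟩ := div_card htr (p + 1)
      rw [hc] at hsum
      push_cast at hsum
      have h2 : ((p : ℤ) + 2) ∣ 2 := ⟨c - a, by linarith⟩
      have h3 := Int.le_of_dvd (by norm_num) h2
      linarith
    · push Not at hall
      obtain ⟨v, hv⟩ := hall
      have hvpos : 0 < phi p (G.degree v) := lt_of_le_of_ne (phi_nonneg _ _) (Ne.symm hv)
      have hcl : ∑ w ∈ cl G v, phi p (G.degree w) = (G.degree v + 1) * phi p (G.degree v) := by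
        rw [Finset.sum_congr rfl (fun w hw => by rw [deg_eq_of_mem_cl htr hw]),
          Finset.sum_const, card_cl, nsmul_eq_mul]
        push_cast
        ring
      have hsplit : ∑ w ∈ cl G v, phi p (G.degree w) + ∑ w ∈ univ \ cl G v, phi p (G.degree w) =
          ∑ w, phi p (G.degree w) := by
        rw [add_comm]
        exact Finset.sum_sdiff (Finset.subset_univ _)
      have hrest0 : 0 ≤ ∑ w ∈ univ \ cl G v, phi p (G.degree w) :=
        Finset.sum_nonneg (fun w _ => phi_nonneg _ _)
      set s : ℤ := (G.degree v : ℤ) + 1 with hs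
      have hs1 : 1 ≤ s := by
        have : (0 : ℤ) ≤ (G.degree v : ℤ) := by positivity
        linarith
      have hphi : phi p (G.degree v) = (s - 1 - p) * (s - 2 - p) := by
        unfold phi; rw [hs]; ring
      have hsle : s * phi p (G.degree v) ≤ 2 * p := by rw [← hcl]; linarith
      have hsp : s = p := by
        rw [hphi] at hsle hvpos
        rcases lt_trichotomy s p with h | h | h
        · exfalso
          have g1 : 0 ≤ (s - 1) * (p - s) := mul_nonneg (by linarith) (by linarith)
          have g2 : (p : ℤ) ≤ s * (p + 1 - s) := by nlinarith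
          have g3 : 3 * (s * (p + 1 - s)) ≤ s * (p + 1 - s) * (p + 2 - s) := by
            have : 0 ≤ s * (p + 1 - s) := by linarith
            nlinarith
          nlinarith
        · exact h
        · exfalso
          have h' : s = p + 1 ∨ s = p + 2 ∨ p + 3 ≤ s := by omega
          rcases h' with h' | h' | h'
          · rw [h'] at hvpos; simp at hvpos
          · rw [h'] at hvpos; simp at hvpos
          · have g1 : 2 ≤ s - 1 - p := by linarith
            have g2 : 1 ≤ s - 2 - p := by linarith
            have g3 : 2 ≤ (s - 1 - p) * (s - 2 - p) := by nlinarith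
            nlinarith
      have hdv : (G.degree v : ℤ) = p - 1 := by linarith
      have hphiv : phi p (G.degree v) = 2 := by rw [hphi, hsp]; ring
      have hrest : ∑ w ∈ univ \ cl G v, phi p (G.degree w) = 0 := by
        rw [hphiv, hsp] at hcl
        linarith
      have hrest' : ∀ w ∈ univ \ cl G v, phi p (G.degree w) = 0 :=
        (Finset.sum_eq_zero_iff_of_nonneg (fun w _ => phi_nonneg _ _)).1 hrest
      have hX1 : ∀ w ∈ univ \ cl G v, ((G.degree w : ℤ) - p) =
          if G.degree w = p + 1 then 1 else 0 := by
        intro w hw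
        rcases phi_zero (hrest' w hw) with h | h
        · rw [h, if_neg (by intro h'; rw [h'] at h; push_cast at h; linarith)]
          ring
        · rw [h, if_pos (by exact_mod_cast h)]
          ring
      have hsplit2 : ∑ w ∈ cl G v, ((G.degree w : ℤ) - p) +
          ∑ w ∈ univ \ cl G v, ((G.degree w : ℤ) - p) = a * (p + 2) + 2 := by
        rw [← hsum, add_comm]
        exact Finset.sum_sdiff (Finset.subset_univ _)
      have hcl2 : ∑ w ∈ cl G v, ((G.degree w : ℤ) - p) = -p := by
        have : ∀ w ∈ cl G v, ((G.degree w : ℤ) - p) = -1 := by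
          intro w hw
          rw [deg_eq_of_mem_cl htr hw, hdv]
          ring
        rw [Finset.sum_congr rfl this, Finset.sum_const, card_cl, nsmul_eq_mul]
        push_cast
        rw [hdv]
        ring
      rw [hcl2, Finset.sum_congr rfl hX1, Finset.sum_boole] at hsplit2
      have hcard : ((univ \ cl G v).filter (fun w => G.degree w = p + 1)).card + (G.degree v + 1) ≤
          (p + 2) * a + p + 1 := by
        rw [← hn, ← card_cl, ← Finset.card_univ (α := V)]
        have h1 := Finset.card_sdiff_add_card_eq_card (Finset.subset_univ (cl G v))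
        have h2 := Finset.card_filter_le (univ \ cl G v) (fun w => G.degree w = p + 1)
        omega
      have hcard' : (((univ \ cl G v).filter (fun w => G.degree w = p + 1)).card : ℤ) +
          (G.degree v + 1) ≤ (p + 2) * a + p + 1 := by exact_mod_cast hcard
      nlinarith

end Q117.S3
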