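import Mathlib
import Pool.Agent.Q117.S3.Lower

set_option autoImplicit false

namespace Q117.S3

open Finset SimpleGraph

/-- disjoint union of cliques -/
def SG {B : Type} (sz : B → ℕ) : SimpleGraph (Σ b : B, Fin (sz b)) where
  Adj u v := u ≠ v ∧ u.1 = v.1
  symm := ⟨fun _ _ h => ⟨h.1.symm, h.2.symm⟩⟩
  loopless := ⟨fun _ h => h.1 rfl⟩

variable {B : Type} [Fintype B] [DecidableEq B] (sz : B → ℕ)

instance : DecidableRel (SG sz).Adj := fun u v =>
  inferInstanceAs (Decidable (u ≠ v ∧ u.1 = v.1))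

lemma SG_degree (v : Σ b : B, Fin (sz b)) : ((SG sz).degree v : ℤ) = sz v.1 - 1 := by
  have h1 := card_cl (SG sz) v
  have h2 : cl (SG sz) v = (univ : Finset (Fin (sz v.1))).map
      ⟨fun i => (⟨v.1, i⟩ : Σ b : B, Fin (sz b)), fun i j h => by simpa using h⟩ := by
    ext w
    rw [mem_cl, mem_map]
    constructor
    · rintro (rfl | ⟨_, h⟩)
      · exact ⟨w.2, mem_univ _, rfl⟩
      · obtain ⟨b, i⟩ := w
        obtain ⟨b', i'⟩ := v
        simp only at h
        subst h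
        exact ⟨i, mem_univ _, rfl⟩
    · rintro ⟨i, _, rfl⟩
      by_cases h : (⟨v.1, i⟩ : Σ b : B, Fin (sz b)) = v
      · exact Or.inl h
      · exact Or.inr ⟨Ne.symm h, rfl⟩
  rw [h2, Finset.card_map, Finset.card_univ, Fintype.card_fin] at h1
  rw [h1]
  push_cast
  ring

lemma SG_Q : Q (SG sz) = 0 := by
  unfold Q
  rw [Finset.card_eq_zero, Finset.filter_eq_empty_iff]
  rintro ⟨v, a, b⟩ _ ⟨h1, h2, h3, h4⟩
  exact h4 ⟨h3, h1.2.symm.trans h2.2⟩

lemma SG_sum (f : ℤ → ℤ) : ∑ v, f ((SG sz).degree v : ℤ) = ∑ b, (sz b : ℤ) * f (sz b - 1) := by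
  simp only [SG_degree]
  rw [Fintype.sum_sigma]
  apply Finset.sum_congr rfl
  intro b _
  simp

omit sz [Fintype B] [DecidableEq B] in
/-- the sizes of the extremal example -/
def szz (p c : ℕ) : Unit ⊕ (Fin (p + 1) ⊕ Fin (c + 1)) → ℕ :=
  Sum.elim (fun _ => p) (Sum.elim (fun _ => p + 1) (fun _ => p + 2))

lemma sum_szz (p c : ℕ) (g : ℤ → ℤ) : ∑ b, g (szz p c b) =
    g p + (p + 1) * g (p + 1) + (c + 1) * g (p + 2) := by
  rw [Fintype.sum_sum_type, Fintype.sum_sum_type]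
  simp [szz]
  ring

lemma s3_phi {V : Type} [Fintype V] [DecidableEq V] (G : SimpleGraph V) [DecidableRel G.Adj]
    (p : ℤ) : 6 * (s3 G : ℤ) = (Fintype.card V : ℤ) * (p * (p - 1)) +
      2 * p * (∑ v, (G.degree v : ℤ) - p * Fintype.card V) +
      (∑ v, phi p (G.degree v) + 2 * (Q G : ℤ)) := by
  rw [s3_formula]
  have h : ∀ v, (G.degree v : ℤ) * ((G.degree v : ℤ) - 1) =
      p * (p - 1) + 2 * p * ((G.degree v : ℤ) - p) + phi p (G.degree v) := by
    intro v
    unfold phi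
    ring
  rw [Finset.sum_congr rfl (fun v _ => h v), Finset.sum_add_distrib, Finset.sum_add_distrib,
    ← Finset.mul_sum _ _ (2 * p), Finset.sum_sub_distrib]
  simp only [Finset.sum_const, Finset.card_univ, nsmul_eq_mul]
  ring

lemma two_edges {V : Type} [Fintype V] [DecidableEq V] (G : SimpleGraph V) [DecidableRel G.Adj] :
    (∑ v, (G.degree v : ℤ)) = 2 * (G.edgeSet.ncard : ℤ) := by
  have h := G.sum_degrees_eq_twice_card_edges
  have h2 : G.edgeSet.ncard = G.edgeFinset.card := by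
    rw [← SimpleGraph.coe_edgeFinset, Set.ncard_coe_finset]
  rw [h2]
  exact_mod_cast h

/-- vertices -/
def nn (p c : ℕ) : ℕ := (p + 2) * (p + 1 + c) + p + 1

/-- edges -/
def ee (p c : ℕ) : ℕ := (p + c) * (p + 2).choose 2 + (p + 1).choose 2 + 1

lemma choose2 (p : ℕ) : 2 * ((p + 1).choose 2 : ℤ) = (p + 1) * p := by
  have := Nat.choose_two_right (p + 1)
  have h2 : 2 ∣ (p + 1) * (p + 1 - 1) := (Nat.even_mul_pred_self (p + 1)).two_dvd
  have h3 : 2 * (p + 1).choose 2 = (p + 1) * p := by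
    rw [this, Nat.mul_div_cancel' h2]
    simp
  exact_mod_cast h3

lemma two_ee (p c : ℕ) : 2 * (ee p c : ℤ) = (p + c) * ((p + 2) * (p + 1)) + (p + 1) * p + 2 := by
  unfold ee
  have h1 := choose2 p
  have h2 := choose2 (p + 1)
  push_cast at h2 ⊢
  have h3 : (p + 1 + 1).choose 2 = (p + 2).choose 2 := rfl
  rw [h3] at h2
  nlinarith

lemma upper (p c : ℕ) : ∃ (V : Type) (_ : Fintype V) (G : SimpleGraph V),
    Fintype.card V = nn p c ∧ G.edgeSet.ncard = ee p c ∧
    6 * (s3 G : ℤ) = (nn p c : ℤ) * ((p : ℤ) * (p - 1)) +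
      2 * p * (2 * (ee p c : ℤ) - p * nn p c) + 2 * p := by
  classical
  have hcard : Fintype.card (Σ b, Fin (szz p c b)) = nn p c := by
    rw [Fintype.card_sigma]
    have h := sum_szz p c (fun x => x)
    have h2 : ((∑ b, Fintype.card (Fin (szz p c b)) : ℕ) : ℤ) = (nn p c : ℤ) := by
      push_cast
      simp only [Fintype.card_fin]
      rw [h]
      unfold nn
      push_cast
      ring
    exact_mod_cast h2
  have hdeg : ∑ v, ((SG (szz p c)).degree v : ℤ) = 2 * (ee p c : ℤ) := by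
    rw [SG_sum (szz p c) (fun x => x), sum_szz p c (fun x => x * (x - 1)), two_ee]
    ring
  have hedge : (SG (szz p c)).edgeSet.ncard = ee p c := by
    have := two_edges (SG (szz p c))
    rw [hdeg] at this
    have : (ee p c : ℤ) = ((SG (szz p c)).edgeSet.ncard : ℤ) := by linarith
    exact_mod_cast this.symm
  refine ⟨_, inferInstance, SG (szz p c), hcard, hedge, ?_⟩
  rw [s3_phi (SG (szz p c)) p, hcard, hdeg, SG_Q]
  have hphi : ∑ v, phi p ((SG (szz p c)).degree v) = 2 * p := by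
    rw [SG_sum (szz p c) (fun x => phi p x), sum_szz p c (fun x => x * phi p (x - 1))]
    unfold phi
    ring
  rw [hphi]
  push_cast
  ring

lemma exists_graph (n e : ℕ) (h : e ≤ n.choose 2) : ∃ G : SimpleGraph (Fin n),
    G.edgeSet.ncard = e := by
  classical
  have h1 : (⊤ : SimpleGraph (Fin n)).edgeFinset.card = n.choose 2 := by
    rw [SimpleGraph.card_edgeFinset_top_eq_card_choose_two, Fintype.card_fin]
  rw [← h1] at h
  obtain ⟨F, hF, hFc⟩ := Finset.exists_subset_card_eq h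
  refine ⟨SimpleGraph.fromEdgeSet (F : Set (Sym2 (Fin n))), ?_⟩
  rw [SimpleGraph.edgeSet_fromEdgeSet]
  have : (F : Set (Sym2 (Fin n))) \ Sym2.diagSet = F := by
    ext x
    simp only [Set.mem_sdiff, mem_coe, and_iff_left_iff_imp, Sym2.mem_diagSet]
    intro hx
    have := hF hx
    rw [SimpleGraph.mem_edgeFinset] at this
    exact (⊤ : SimpleGraph (Fin n)).not_isDiag_of_mem_edgeSet this
  rw [this, Set.ncard_coe_finset, hFc]

/-- The main comparison. -/
theorem compare (p c : ℕ) (hp : 2 ≤ p) :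
    ee p c + (p + 2).choose 2 ≤ (nn p c).choose 2 ∧
    p * nn p c < 2 * ee p c ∧ 2 * (ee p c + (p + 2).choose 2) < (p + 1) * nn p c ∧
    m (nn p c) (ee p c) + p * (p + 1) * (p + 2) / 3 <
      m (nn p c) (ee p c + (p + 2).choose 2) := by
  have h2e := two_ee p c
  have hch := choose2 (p + 1)
  have h3 : (p + 1 + 1).choose 2 = (p + 2).choose 2 := rfl
  rw [h3] at hch
  push_cast at hch
  have hp' : (2 : ℤ) ≤ p := by exact_mod_cast hp
  have hc' : (0 : ℤ) ≤ c := by positivity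
  have hnn : (nn p c : ℤ) = (p + 2) * (p + 1 + c) + p + 1 := by unfold nn; push_cast; ring
  have hA : p * nn p c < 2 * ee p c := by
    have : (p : ℤ) * nn p c < 2 * ee p c := by
      rw [h2e, hnn]; nlinarith
    exact_mod_cast this
  have hB : 2 * (ee p c + (p + 2).choose 2) < (p + 1) * nn p c := by
    have : 2 * ((ee p c : ℤ) + ((p + 2).choose 2 : ℤ)) < (p + 1) * nn p c := by
      rw [mul_add, h2e, hch, hnn]; nlinarith
    exact_mod_cast this
  have hC : ee p c + (p + 2).choose 2 ≤ (nn p c).choose 2 := by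
    have h4' : p + 2 ≤ nn p c := by unfold nn; nlinarith
    have h4 : p + 1 ≤ nn p c - 1 := by omega
    have h5 := Nat.choose_two_right (nn p c)
    have h6 : 2 ∣ nn p c * (nn p c - 1) := (Nat.even_mul_pred_self (nn p c)).two_dvd
    have h7 : 2 * (nn p c).choose 2 = nn p c * (nn p c - 1) := by
      rw [h5, Nat.mul_div_cancel' h6]
    have h8 : (p + 1) * nn p c ≤ nn p c * (nn p c - 1) := by
      rw [mul_comm]; exact Nat.mul_le_mul_left _ h4
    omega
  refine ⟨hC, hA, hB, ?_⟩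
  -- upper bound for `m(n,e)`
  obtain ⟨V, hV, G, h1, h2, h6⟩ := upper p c
  have hup : m (nn p c) (ee p c) ≤ s3 G := Nat.sInf_le ⟨V, hV, G, h1, h2, rfl⟩
  -- lower bound for `m(n,e+P)`
  obtain ⟨G₀, hG₀⟩ := exists_graph (nn p c) (ee p c + (p + 2).choose 2) hC
  have hmem : m (nn p c) (ee p c + (p + 2).choose 2) ∈ {k : ℕ | ∃ (V : Type) (_ : Fintype V)
      (G : SimpleGraph V), Fintype.card V = nn p c ∧
        G.edgeSet.ncard = ee p c + (p + 2).choose 2 ∧ k = s3 G} :=
    Nat.sInf_mem ⟨s3 G₀, Fin (nn p c), inferInstance, G₀, Fintype.card_fin _, hG₀, rfl⟩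
  obtain ⟨W, hW, H, k1, k2, k3⟩ := hmem
  classical
  have hdegW : ∑ v, (H.degree v : ℤ) = (p + 1 + c : ℕ) * (p + 2) * (p + 1) + (p + 1) * p + 2 := by
    rw [two_edges, k2]
    push_cast
    rw [mul_add, h2e, hch]
    ring
  have hlow := lower (G := H) p (p + 1 + c) hp k1 hdegW
  have hform := s3_phi H p
  rw [k1, hdegW] at hform
  have hD : 3 * (p * (p + 1) * (p + 2) / 3) = p * (p + 1) * (p + 2) := by
    apply Nat.mul_div_cancel'
    have : p % 3 = 0 ∨ p % 3 = 1 ∨ p % 3 = 2 := by omega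
    rcases this with h | h | h
    · exact Dvd.dvd.mul_right (Dvd.dvd.mul_right (Nat.dvd_of_mod_eq_zero h) _) _
    · exact Dvd.dvd.mul_left (Nat.dvd_of_mod_eq_zero (by omega)) _
    · exact Dvd.dvd.mul_right (Dvd.dvd.mul_left (Nat.dvd_of_mod_eq_zero (by omega)) _) _
  have hD' : 3 * ((p * (p + 1) * (p + 2) / 3 : ℕ) : ℤ) = p * (p + 1) * (p + 2) := by
    exact_mod_cast hD
  rw [k3]
  have hfin : 6 * ((m (nn p c) (ee p c) : ℤ) + ((p * (p + 1) * (p + 2) / 3 : ℕ) : ℤ)) <
      6 * (s3 H : ℤ) := by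
    have hup' : (m (nn p c) (ee p c) : ℤ) ≤ (s3 G : ℤ) := by exact_mod_cast hup
    have e1 : 6 * (m (nn p c) (ee p c) : ℤ) ≤ 6 * (s3 G : ℤ) := by linarith
    rw [h6] at e1
    rw [hform]
    rw [h2e] at e1
    push_cast at e1 ⊢
    nlinarith
  have : (m (nn p c) (ee p c) : ℤ) + ((p * (p + 1) * (p + 2) / 3 : ℕ) : ℤ) < (s3 H : ℤ) := by
    linarith
  exact_mod_cast this

end Q117.S3
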